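import Pool.Agent.W869.FU.Final

/-!
# Whether there are fresh subsets can depend on the normal ultrafilter

The positive answer to the question has three parts.

* Suppose that `δ` is a cardinal with two different normal ultrafilters and that `μ > δ` is
  measurable. Then some forcing notion forces `Hypothesis δ μ`. The forcing language is the one of
  `Pool.Agent.Helper669.Forcing`: a sentence is the set of the conditions which force it;
  `HypothesisN P I M` is the literal translation of the proposition `Hypothesis I M` into the
  forcing language (quantifiers over subsets, relations and functions become quantifiers over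
  names; the two families of sets are named families indexed by ground model sets).
* In ZFC: let `I` and `M` be well-ordered sets with `Hypothesis I M`. Then there are a measurable
  cardinal `δ`, normal ultrafilters `U₀` and `U₁` on `δ` and a limit ordinal `λ` such that no
  unbounded subset of `λ` is fresh over `Ult(V, U₀)` and some unbounded subset of `λ` is fresh over
  `Ult(V, U₁)`.
* The collapse used in the definition of `Fresh` exists and is unique.

The conditions are systems of `δ` many tree orders on a closed subset of `μ` of size at most `δ`,
such that any two points are comparable in almost all of the orders modulo `U₁`.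
-/

set_option autoImplicit false

namespace Pool.Agent.Results.MP_8fac41_lc.FreshDependsOnMeasure

open Cardinal Pool.Agent.W869.FU

theorem result :
    -- the hypothesis can be forced
    (∀ δ μ : Cardinal.{0}, δ < μ →
      (∃ U₀ U₁ : Ultrafilter δ.ord.ToType,
        U₀ ≠ U₁ ∧ IsNormalMeasure δ U₀ ∧ IsNormalMeasure δ U₁) →
      (∃ W : Ultrafilter μ.ord.ToType, IsNormalMeasure μ W) →
      ∃ (P : Type) (_ : Preorder P), Nonempty P ∧
        ∀ p : P, p ∈ HypothesisN P δ.ord.ToType μ.ord.ToType) ∧
    -- the hypothesis gives two normal ultrafilters as in the question
    (∀ (I M : Type) [LinearOrder I] [WellFoundedLT I] [LinearOrder M] [WellFoundedLT M],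
      Hypothesis I M →
      ∃ (δ : Cardinal.{0}) (U₀ U₁ : Ultrafilter δ.ord.ToType),
        IsNormalMeasure δ U₀ ∧ IsNormalMeasure δ U₁ ∧
        ∃ lam : Ordinal.{0}, Order.IsSuccLimit lam ∧
          (¬ ∃ A, UnboundedIn lam A ∧ Fresh U₀ lam A) ∧
          ∃ A, UnboundedIn lam A ∧ Fresh U₁ lam A) ∧
    -- the collapse of the ultrapower of the ordinals exists and is unique
    (∀ (δ : Cardinal.{0}) (U : Ultrafilter δ.ord.ToType), IsNormalMeasure δ U →
      ∃! c : (δ.ord.ToType → Ordinal.{0}) → Ordinal.{0}, IsCollapse U c) := by
  refine ⟨fun δ μ h1 h2 h3 => forced h1 h2 h3, fun I M _ _ _ _ h => answer' h, fun δ U hU => ?_⟩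
  exact ⟨col (normMeas_of hU), col_isCollapse (normMeas_of hU),
    fun c hc => collapse_unique hc (col_isCollapse (normMeas_of hU))⟩

end Pool.Agent.Results.MP_8fac41_lc.FreshDependsOnMeasure
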